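import Mathlib

/-! # Quasi-absolutely summing bilinear maps that are not strongly multiple summing -/

set_option autoImplicit false

namespace Pool.Agent.Results.MP_3dc8bf_an.QuasiNotStronglyMultiple

open scoped ENNReal NNReal BoundedContinuousFunction
open BoundedContinuousFunction

universe u v

section Definitions

variable {𝕜 : Type u} [RCLike 𝕜]

/-- The weak `ℓ_p` norm of a sequence: the supremum of `(∑ |φ (x j)|^p)^(1/p)` over the functionals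
`φ` of norm at most one. -/
noncomputable def weakNorm (𝕜 : Type u) [RCLike 𝕜] {E : Type v} [NormedAddCommGroup E]
    [NormedSpace 𝕜 E] (p : ℝ) (x : ℕ → E) : ℝ≥0∞ :=
  ⨆ φ : {φ : StrongDual 𝕜 E // ‖φ‖ ≤ 1}, (∑' j, ‖φ.1 (x j)‖ₑ ^ p) ^ (1 / p)

variable {n : ℕ} {E : Fin n → Type v} [∀ i, NormedAddCommGroup (E i)] [∀ i, NormedSpace 𝕜 (E i)]
  {F : Type v} [NormedAddCommGroup F] [NormedSpace 𝕜 F]

/-- `T` is `k`-absolutely `p`-summing. -/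
def KSumming (p : ℝ) (k : Fin n) (T : ContinuousMultilinearMap 𝕜 E F) : Prop :=
  ∃ C : ℝ≥0, ∀ (a : ∀ i, E i) (x : ℕ → E k), weakNorm 𝕜 p x < ⊤ →
    (∑' j, ‖T (Function.update a k (x j))‖ₑ ^ p) ^ (1 / p) ≤
      C * weakNorm 𝕜 p x * ∏ i ∈ Finset.univ.erase k, ‖a i‖ₑ

/-- `T` is quasi-absolutely `p`-summing: it is `k`-absolutely `p`-summing for all `k`. -/
def QuasiSumming (p : ℝ) (T : ContinuousMultilinearMap 𝕜 E F) : Prop :=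
  ∀ k, KSumming p k T

/-- `T` is strongly multiple `p`-summing. -/
def StronglyMultipleSumming (p : ℝ) (T : ContinuousMultilinearMap 𝕜 E F) : Prop :=
  ∃ C : ℝ≥0, ∀ (m : ℕ) (x : ∀ k : Fin n, Fin m → E k),
    (∑ j : Fin n → Fin m, ‖T fun k => x k (j k)‖ₑ ^ p) ^ (1 / p) ≤
      C * ⨆ φ : {φ : ContinuousMultilinearMap 𝕜 E 𝕜 // ‖φ‖ ≤ 1},
        (∑ j : Fin n → Fin m, ‖φ.1 fun k => x k (j k)‖ₑ ^ p) ^ (1 / p)

end Definitions

variable {𝕜 : Type u} [RCLike 𝕜]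

/-! ### Signs -/

theorem exists_signs {V : Type*} [NormedAddCommGroup V] [InnerProductSpace 𝕜 V] {ι : Type*}
    (s : Finset ι) (v : ι → V) :
    ∃ ε : ι → 𝕜, (∀ i, ε i = 1 ∨ ε i = -1) ∧ ∑ i ∈ s, ‖v i‖ ^ 2 ≤ ‖∑ i ∈ s, ε i • v i‖ ^ 2 := by
  classical
  induction s using Finset.induction_on with
  | empty => exact ⟨fun _ => 1, fun _ => Or.inl rfl, by simp⟩
  | insert a s ha ih =>
    obtain ⟨ε, hε, h⟩ := ih
    have hu : ∀ c : 𝕜, ∑ i ∈ s, (Function.update ε a c) i • v i = ∑ i ∈ s, ε i • v i := by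
      intro c
      refine Finset.sum_congr rfl fun i hi => ?_
      have hia : i ≠ a := fun h => ha (by rw [← h]; exact hi)
      rw [Function.update_of_ne hia]
    have hpar := parallelogram_law_with_norm 𝕜 (v a) (∑ i ∈ s, ε i • v i)
    have hor : ‖v a‖ ^ 2 + ‖∑ i ∈ s, ε i • v i‖ ^ 2 ≤ ‖v a + ∑ i ∈ s, ε i • v i‖ ^ 2 ∨
        ‖v a‖ ^ 2 + ‖∑ i ∈ s, ε i • v i‖ ^ 2 ≤ ‖v a - ∑ i ∈ s, ε i • v i‖ ^ 2 := by
      by_contra hc
      push Not at hc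
      nlinarith [hc.1, hc.2, hpar]
    rcases hor with h1 | h1
    · refine ⟨Function.update ε a 1, ?_, ?_⟩
      · intro i
        by_cases hi : i = a
        · subst hi; simp
        · rw [Function.update_of_ne hi]; exact hε i
      · rw [Finset.sum_insert ha, Finset.sum_insert ha, hu, Function.update_self, one_smul]
        linarith
    · refine ⟨Function.update ε a (-1), ?_, ?_⟩
      · intro i
        by_cases hi : i = a
        · subst hi; simp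
        · rw [Function.update_of_ne hi]; exact hε i
      · rw [Finset.sum_insert ha, Finset.sum_insert ha, hu, Function.update_self, neg_smul, one_smul]
        have h2 : ‖-v a + ∑ i ∈ s, ε i • v i‖ = ‖v a - ∑ i ∈ s, ε i • v i‖ := by
          rw [← norm_neg]
          congr 1
          abel
        rw [h2]
        linarith

/-! ### The spaces and the map -/

/-- The bounded sequence equal to `f`, if `f` is bounded by `C`. -/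
noncomputable def bdd {ι : Type} [TopologicalSpace ι] [DiscreteTopology ι] (f : ι → 𝕜) (C : ℝ)
    (h : ∀ i, ‖f i‖ ≤ C) : ι →ᵇ 𝕜 := BoundedContinuousFunction.ofNormedAddCommGroupDiscrete f C h

theorem bdd_apply {ι : Type} [TopologicalSpace ι] [DiscreteTopology ι] (f : ι → 𝕜) (C : ℝ)
    (h : ∀ i, ‖f i‖ ≤ C) (i : ι) : bdd f C h i = f i := rfl

/-- The weights. -/
noncomputable def wt (q : ℕ × ℕ) : ℝ := 1 / ((max q.1 q.2 : ℕ) + 1 : ℝ)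

theorem wt_nonneg (q : ℕ × ℕ) : 0 ≤ wt q := by unfold wt; positivity

theorem wt_le_fst (q : ℕ × ℕ) : wt q ≤ 1 / ((q.1 : ℝ) + 1) := by
  unfold wt
  apply one_div_le_one_div_of_le (by positivity)
  have : (q.1 : ℝ) ≤ ((max q.1 q.2 : ℕ) : ℝ) := by exact_mod_cast le_max_left _ _
  linarith

theorem wt_le_snd (q : ℕ × ℕ) : wt q ≤ 1 / ((q.2 : ℝ) + 1) := by
  unfold wt
  apply one_div_le_one_div_of_le (by positivity)
  have : (q.2 : ℝ) ≤ ((max q.1 q.2 : ℕ) : ℝ) := by exact_mod_cast le_max_right _ _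
  linarith

theorem wt_le_one (q : ℕ × ℕ) : wt q ≤ 1 := by
  refine (wt_le_fst q).trans ?_
  rw [div_le_one (by positivity)]
  have : (0 : ℝ) ≤ q.1 := by positivity
  linarith

theorem norm_wt (q : ℕ × ℕ) : ‖((wt q : ℝ) : 𝕜)‖ = wt q := by
  rw [RCLike.norm_ofReal, abs_of_nonneg (wt_nonneg q)]

theorem bound_aux (x : Fin 2 → (ℕ →ᵇ 𝕜)) (q : ℕ × ℕ) :
    ‖((wt q : ℝ) : 𝕜) * (x 0 q.1 * x 1 q.2)‖ ≤ 1 * ∏ i, ‖x i‖ := by
  rw [norm_mul, norm_mul, norm_wt, Fin.prod_univ_two]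
  gcongr
  · exact wt_le_one q
  · exact (x 0).norm_coe_le_norm _
  · exact (x 1).norm_coe_le_norm _

/-- The bilinear map `(x, y) ↦ (x_i y_k / max (i, k))`. -/
noncomputable def Tm : MultilinearMap 𝕜 (fun _ : Fin 2 => (ℕ →ᵇ 𝕜)) ((ℕ × ℕ) →ᵇ 𝕜) where
  toFun x := bdd (fun q => ((wt q : ℝ) : 𝕜) * (x 0 q.1 * x 1 q.2)) _ (bound_aux x)
  map_update_add' := by
    intro inst m i x y
    have : inst = instDecidableEqFin 2 := Subsingleton.elim _ _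
    subst this
    ext q
    rw [BoundedContinuousFunction.add_apply, bdd_apply, bdd_apply, bdd_apply]
    fin_cases i
    · simp; ring
    · simp; ring
  map_update_smul' := by
    intro inst m i c x
    have : inst = instDecidableEqFin 2 := Subsingleton.elim _ _
    subst this
    ext q
    rw [BoundedContinuousFunction.smul_apply, bdd_apply, bdd_apply]
    fin_cases i
    · simp; ring
    · simp; ring

theorem Tm_apply (x : Fin 2 → (ℕ →ᵇ 𝕜)) (q : ℕ × ℕ) :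
    Tm x q = ((wt q : ℝ) : 𝕜) * (x 0 q.1 * x 1 q.2) := rfl

/-- The bounded bilinear map `(x, y) ↦ (x_i y_k / max (i, k))`. -/
noncomputable def T : ContinuousMultilinearMap 𝕜 (fun _ : Fin 2 => (ℕ →ᵇ 𝕜)) ((ℕ × ℕ) →ᵇ 𝕜) :=
  Tm.mkContinuous 1 fun x => by
    refine BoundedContinuousFunction.norm_le (by positivity) |>.2 fun q => ?_
    rw [Tm_apply]
    exact bound_aux x q

theorem T_apply (x : Fin 2 → (ℕ →ᵇ 𝕜)) (q : ℕ × ℕ) :
    T x q = ((wt q : ℝ) : 𝕜) * (x 0 q.1 * x 1 q.2) := rfl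

theorem enorm_sq_le {ι : Type} [TopologicalSpace ι] [DiscreteTopology ι] (g : ι →ᵇ 𝕜) (R : ℝ≥0∞)
    (h : ∀ q, ‖g q‖ₑ ^ 2 ≤ R) : ‖g‖ₑ ^ 2 ≤ R := by
  by_cases hR : R = ⊤
  · rw [hR]; exact le_top
  lift R to ℝ≥0 using hR
  have h1 : ∀ q, ‖g q‖₊ ≤ NNReal.sqrt R := by
    intro q
    have h2 := h q
    rw [enorm_eq_nnnorm] at h2
    rw [NNReal.le_sqrt_iff_sq_le]
    exact_mod_cast h2
  have h3 : ‖g‖ ≤ (NNReal.sqrt R : ℝ) := by
    refine BoundedContinuousFunction.norm_le (by positivity) |>.2 fun q => ?_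
    exact NNReal.coe_le_coe.2 (h1 q)
  have h4 : ‖g‖₊ ^ 2 ≤ R := by
    rw [← NNReal.le_sqrt_iff_sq_le]
    exact NNReal.coe_le_coe.1 h3
  rw [enorm_eq_nnnorm]
  exact_mod_cast h4

/-- The squared weights. -/
noncomputable def w2 (i : ℕ) : ℝ≥0∞ := ENNReal.ofReal ((1 / ((i : ℝ) + 1)) ^ 2)

theorem w2_sum : ∑' i, w2 i ≠ ⊤ := by
  have h1 : Summable fun i : ℕ => (1 / ((i : ℝ) + 1)) ^ 2 := by
    have h2 : Summable fun i : ℕ => 1 / ((i : ℝ)) ^ 2 := Real.summable_one_div_nat_pow.2 (by norm_num)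
    have h3 := (summable_nat_add_iff 1).2 h2
    refine h3.congr fun i => ?_
    push_cast
    rw [one_div_pow]
  exact h1.tsum_ofReal_ne_top

theorem T_bound_zero (y : Fin 2 → (ℕ →ᵇ 𝕜)) :
    ‖T y‖ₑ ^ 2 ≤ ‖y 1‖ₑ ^ 2 * ∑' i, w2 i * ‖y 0 i‖ₑ ^ 2 := by
  refine enorm_sq_le _ _ fun q => ?_
  have h1 : ‖T y q‖ₑ ^ 2 ≤ ‖y 1‖ₑ ^ 2 * (w2 q.1 * ‖y 0 q.1‖ₑ ^ 2) := by
    rw [T_apply]
    simp only [w2, enorm_eq_nnnorm, nnnorm_mul]
    rw [ENNReal.ofReal, ← ENNReal.coe_pow, ← ENNReal.coe_pow, ← ENNReal.coe_pow, ← ENNReal.coe_mul,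
      ← ENNReal.coe_mul, ENNReal.coe_le_coe, ← NNReal.coe_le_coe]
    push_cast
    rw [norm_wt, Real.coe_toNNReal _ (by positivity), mul_pow, mul_pow]
    have h2 : wt q ^ 2 ≤ (1 / ((q.1 : ℝ) + 1)) ^ 2 :=
      pow_le_pow_left₀ (wt_nonneg q) (wt_le_fst q) 2
    have h3 : ‖y 1 q.2‖ ^ 2 ≤ ‖y 1‖ ^ 2 :=
      pow_le_pow_left₀ (norm_nonneg _) ((y 1).norm_coe_le_norm _) 2
    calc wt q ^ 2 * (‖y 0 q.1‖ ^ 2 * ‖y 1 q.2‖ ^ 2)
        ≤ (1 / ((q.1 : ℝ) + 1)) ^ 2 * (‖y 0 q.1‖ ^ 2 * ‖y 1‖ ^ 2) := by gcongr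
      _ = _ := by ring
  refine h1.trans ?_
  gcongr
  exact ENNReal.le_tsum (f := fun i => w2 i * ‖y 0 i‖ₑ ^ 2) q.1

theorem T_bound_one (y : Fin 2 → (ℕ →ᵇ 𝕜)) :
    ‖T y‖ₑ ^ 2 ≤ ‖y 0‖ₑ ^ 2 * ∑' i, w2 i * ‖y 1 i‖ₑ ^ 2 := by
  refine enorm_sq_le _ _ fun q => ?_
  have h1 : ‖T y q‖ₑ ^ 2 ≤ ‖y 0‖ₑ ^ 2 * (w2 q.2 * ‖y 1 q.2‖ₑ ^ 2) := by
    rw [T_apply]
    simp only [w2, enorm_eq_nnnorm, nnnorm_mul]
    rw [ENNReal.ofReal, ← ENNReal.coe_pow, ← ENNReal.coe_pow, ← ENNReal.coe_pow, ← ENNReal.coe_mul,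
      ← ENNReal.coe_mul, ENNReal.coe_le_coe, ← NNReal.coe_le_coe]
    push_cast
    rw [norm_wt, Real.coe_toNNReal _ (by positivity), mul_pow, mul_pow]
    have h2 : wt q ^ 2 ≤ (1 / ((q.2 : ℝ) + 1)) ^ 2 :=
      pow_le_pow_left₀ (wt_nonneg q) (wt_le_snd q) 2
    have h3 : ‖y 0 q.1‖ ^ 2 ≤ ‖y 0‖ ^ 2 :=
      pow_le_pow_left₀ (norm_nonneg _) ((y 0).norm_coe_le_norm _) 2
    calc wt q ^ 2 * (‖y 0 q.1‖ ^ 2 * ‖y 1 q.2‖ ^ 2)
        ≤ (1 / ((q.2 : ℝ) + 1)) ^ 2 * (‖y 0‖ ^ 2 * ‖y 1 q.2‖ ^ 2) := by gcongr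
      _ = _ := by ring
  refine h1.trans ?_
  gcongr
  exact ENNReal.le_tsum (f := fun i => w2 i * ‖y 1 i‖ₑ ^ 2) q.2

theorem coord_le (x : ℕ → (ℕ →ᵇ 𝕜)) (i : ℕ) :
    ∑' j, ‖x j i‖ₑ ^ 2 ≤ weakNorm 𝕜 2 x ^ 2 := by
  have hφ : ‖(BoundedContinuousFunction.evalCLM 𝕜 i : (ℕ →ᵇ 𝕜) →L[𝕜] 𝕜)‖ ≤ 1 := by
    refine ContinuousLinearMap.opNorm_le_bound _ zero_le_one fun g => ?_
    rw [one_mul]
    exact g.norm_coe_le_norm i
  have h1 : (∑' j, ‖x j i‖ₑ ^ (2 : ℝ)) ^ (1 / (2 : ℝ)) ≤ weakNorm 𝕜 2 x :=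
    le_iSup (fun φ : {φ : StrongDual 𝕜 (ℕ →ᵇ 𝕜) // ‖φ‖ ≤ 1} =>
      (∑' j, ‖φ.1 (x j)‖ₑ ^ (2 : ℝ)) ^ (1 / (2 : ℝ))) ⟨_, hφ⟩
  have h2 : ∑' j, ‖x j i‖ₑ ^ 2 = ∑' j, ‖x j i‖ₑ ^ (2 : ℝ) := by
    simp only [ENNReal.rpow_two]
  rw [h2]
  calc ∑' j, ‖x j i‖ₑ ^ (2 : ℝ) = ((∑' j, ‖x j i‖ₑ ^ (2 : ℝ)) ^ (1 / (2 : ℝ))) ^ (2 : ℝ) := by
        rw [← ENNReal.rpow_mul]; norm_num
    _ ≤ weakNorm 𝕜 2 x ^ (2 : ℝ) := ENNReal.rpow_le_rpow h1 (by norm_num)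
    _ = _ := ENNReal.rpow_two _

theorem key_sum (x : ℕ → (ℕ →ᵇ 𝕜)) (c : ℝ≥0∞) :
    (∑' j, c ^ 2 * ∑' i, w2 i * ‖x j i‖ₑ ^ 2) ^ (1 / (2 : ℝ)) ≤
      (∑' i, w2 i) ^ (1 / (2 : ℝ)) * weakNorm 𝕜 2 x * c := by
  have h1 : ∑' j, c ^ 2 * ∑' i, w2 i * ‖x j i‖ₑ ^ 2 ≤
      (∑' i, w2 i) * weakNorm 𝕜 2 x ^ 2 * c ^ 2 := by
    rw [ENNReal.tsum_mul_left, ENNReal.tsum_comm]
    have h2 : ∀ i, ∑' j, w2 i * ‖x j i‖ₑ ^ 2 ≤ w2 i * weakNorm 𝕜 2 x ^ 2 := by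
      intro i
      rw [ENNReal.tsum_mul_left]
      gcongr
      exact coord_le x i
    calc c ^ 2 * ∑' i, ∑' j, w2 i * ‖x j i‖ₑ ^ 2 ≤ c ^ 2 * ∑' i, w2 i * weakNorm 𝕜 2 x ^ 2 := by
          gcongr with i
          exact h2 i
      _ = _ := by rw [ENNReal.tsum_mul_right]; ring
  calc _ ≤ ((∑' i, w2 i) * weakNorm 𝕜 2 x ^ 2 * c ^ 2) ^ (1 / (2 : ℝ)) :=
        ENNReal.rpow_le_rpow h1 (by norm_num)
    _ = _ := by
        rw [ENNReal.mul_rpow_of_nonneg _ _ (by norm_num), ENNReal.mul_rpow_of_nonneg _ _ (by norm_num),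
          ← ENNReal.rpow_two, ← ENNReal.rpow_two, ← ENNReal.rpow_mul, ← ENNReal.rpow_mul]
        norm_num

theorem T_quasi : QuasiSumming 2 (T (𝕜 := 𝕜)) := by
  have hS : ∑' i, w2 i ≠ ⊤ := w2_sum
  have hS' : (∑' i, w2 i) ^ (1 / (2 : ℝ)) ≠ ⊤ := ENNReal.rpow_ne_top_of_nonneg (by norm_num) hS
  intro k
  refine ⟨((∑' i, w2 i) ^ (1 / (2 : ℝ))).toNNReal, fun a x _ => ?_⟩
  rw [ENNReal.coe_toNNReal hS']
  have h2 : ∀ k' : Fin 2, (∑' j, ‖(T (𝕜 := 𝕜)) (Function.update a k (x j))‖ₑ ^ (2 : ℝ)) =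
      ∑' j, ‖(T (𝕜 := 𝕜)) (Function.update a k (x j))‖ₑ ^ 2 := by
    intro _
    simp only [ENNReal.rpow_two]
  fin_cases k
  · have h3 : ∏ i ∈ (Finset.univ : Finset (Fin 2)).erase 0, ‖a i‖ₑ = ‖a 1‖ₑ := by
      have : (Finset.univ : Finset (Fin 2)).erase 0 = {1} := by decide
      rw [this, Finset.prod_singleton]
    refine le_trans ?_ ((key_sum x ‖a 1‖ₑ).trans (le_of_eq ?_))
    · rw [h2 0]
      refine ENNReal.rpow_le_rpow (ENNReal.tsum_le_tsum fun j => ?_) (by norm_num)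
      refine (T_bound_zero _).trans (le_of_eq ?_)
      simp
    · rw [← h3]
      rfl
  · have h3 : ∏ i ∈ (Finset.univ : Finset (Fin 2)).erase 1, ‖a i‖ₑ = ‖a 0‖ₑ := by
      have : (Finset.univ : Finset (Fin 2)).erase 1 = {0} := by decide
      rw [this, Finset.prod_singleton]
    refine le_trans ?_ ((key_sum x ‖a 0‖ₑ).trans (le_of_eq ?_))
    · rw [h2 0]
      refine ENNReal.rpow_le_rpow (ENNReal.tsum_le_tsum fun j => ?_) (by norm_num)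
      refine (T_bound_one _).trans (le_of_eq ?_)
      simp
    · rw [← h3]
      rfl

/-! ### The lower bound -/

/-- The unit vectors. -/
noncomputable def ev (a : ℕ) : ℕ →ᵇ 𝕜 :=
  bdd (fun i => if i = a then 1 else 0) 1 fun i => by split_ifs <;> simp

theorem ev_apply (a i : ℕ) : (ev a : ℕ →ᵇ 𝕜) i = if i = a then 1 else 0 := rfl

theorem norm_signs_le (m : ℕ) (ε : Fin m → 𝕜) (hε : ∀ i, ε i = 1 ∨ ε i = -1) :
    ‖∑ a, ε a • (ev (a : ℕ) : ℕ →ᵇ 𝕜)‖ ≤ 1 := by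
  classical
  refine BoundedContinuousFunction.norm_le zero_le_one |>.2 fun i => ?_
  rw [BoundedContinuousFunction.coe_sum, Finset.sum_apply]
  by_cases hi : i < m
  · rw [Finset.sum_eq_single (⟨i, hi⟩ : Fin m)]
    · rw [BoundedContinuousFunction.smul_apply, ev_apply, if_pos rfl, smul_eq_mul, mul_one]
      rcases hε ⟨i, hi⟩ with h | h <;> rw [h] <;> simp
    · intro b _ hb
      rw [BoundedContinuousFunction.smul_apply, ev_apply, if_neg, smul_zero]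
      intro h
      exact hb (Fin.ext h.symm)
    · intro h
      exact absurd (Finset.mem_univ _) h
  · rw [Finset.sum_eq_zero]
    · simp
    · intro b _
      rw [BoundedContinuousFunction.smul_apply, ev_apply, if_neg, smul_zero]
      intro h
      exact hi (h ▸ b.2)

theorem form_bound (m : ℕ) (φ : ContinuousMultilinearMap 𝕜 (fun _ : Fin 2 => (ℕ →ᵇ 𝕜)) 𝕜)
    (hφ : ‖φ‖ ≤ 1) :
    ∑ a : Fin m, ∑ b : Fin m, ‖φ ![ev (a : ℕ), ev (b : ℕ)]‖ ^ 2 ≤ 1 := by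
  -- linearity in each variable
  have lin0 : ∀ (ε : Fin m → 𝕜) (y : ℕ →ᵇ 𝕜),
      φ ![∑ a, ε a • ev (a : ℕ), y] = ∑ a, ε a • φ ![ev (a : ℕ), y] := by
    intro ε y
    have h1 : ∀ x : ℕ →ᵇ 𝕜, φ ![x, y] = φ.toContinuousLinearMap ![0, y] 0 x := by
      intro x
      show _ = φ (Function.update ![0, y] 0 x)
      congr 1
      funext i
      fin_cases i <;> simp
    rw [h1, map_sum]
    refine Finset.sum_congr rfl fun a _ => ?_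
    rw [map_smul, h1]
  have lin1 : ∀ (ε : Fin m → 𝕜) (x : ℕ →ᵇ 𝕜),
      φ ![x, ∑ a, ε a • ev (a : ℕ)] = ∑ a, ε a • φ ![x, ev (a : ℕ)] := by
    intro ε x
    have h1 : ∀ y : ℕ →ᵇ 𝕜, φ ![x, y] = φ.toContinuousLinearMap ![x, 0] 1 y := by
      intro y
      show _ = φ (Function.update ![x, 0] 1 y)
      congr 1
      funext i
      fin_cases i <;> simp
    rw [h1, map_sum]
    refine Finset.sum_congr rfl fun a _ => ?_
    rw [map_smul, h1]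
  let v : Fin m → EuclideanSpace 𝕜 (Fin m) := fun a =>
    WithLp.toLp 2 fun b => φ ![ev (a : ℕ), ev (b : ℕ)]
  obtain ⟨ε, hε, h1⟩ := exists_signs (𝕜 := 𝕜) Finset.univ v
  have h2 : ∑ a : Fin m, ∑ b : Fin m, ‖φ ![ev (a : ℕ), ev (b : ℕ)]‖ ^ 2 = ∑ a, ‖v a‖ ^ 2 := by
    refine Finset.sum_congr rfl fun a _ => ?_
    rw [EuclideanSpace.norm_sq_eq]
  have h3 : ‖∑ a, ε a • v a‖ ^ 2 = ∑ b : Fin m, ‖φ ![∑ a, ε a • ev (a : ℕ), ev (b : ℕ)]‖ ^ 2 := by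
    rw [EuclideanSpace.norm_sq_eq]
    refine Finset.sum_congr rfl fun b _ => ?_
    rw [lin0]
    simp [v]
  obtain ⟨δ, hδ, h4⟩ := exists_signs (𝕜 := 𝕜) Finset.univ
    fun b : Fin m => φ ![∑ a, ε a • ev (a : ℕ), ev (b : ℕ)]
  rw [← lin1] at h4
  have h5 : ‖φ ![∑ a, ε a • ev (a : ℕ), ∑ b, δ b • ev (b : ℕ)]‖ ≤ 1 := by
    refine (φ.le_opNorm _).trans ?_
    rw [Fin.prod_univ_two]
    have h6 := norm_signs_le m ε hε
    have h7 := norm_signs_le m δ hδ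
    calc ‖φ‖ * (‖∑ a, ε a • (ev (a : ℕ) : ℕ →ᵇ 𝕜)‖ * ‖∑ b, δ b • (ev (b : ℕ) : ℕ →ᵇ 𝕜)‖)
        ≤ 1 * (1 * 1) := by gcongr
      _ = 1 := by norm_num
  rw [h2]
  refine h1.trans ?_
  rw [h3]
  refine h4.trans ?_
  exact pow_le_one₀ (norm_nonneg _) h5

theorem T_ev (a b : ℕ) : wt (a, b) ≤ ‖(T (𝕜 := 𝕜)) ![ev a, ev b]‖ := by
  have h := ((T (𝕜 := 𝕜)) ![ev a, ev b]).norm_coe_le_norm (a, b)
  rw [T_apply] at h
  exact (le_abs_self _).trans (by simpa [ev_apply, norm_wt] using h)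

theorem T_not_strong : ¬ StronglyMultipleSumming 2 (T (𝕜 := 𝕜)) := by
  rintro ⟨C, hC⟩
  -- the bound for the square sums
  have key : ∀ m : ℕ, ∑ a : Fin m, ∑ b : Fin m, wt (a, b) ^ 2 ≤ (C : ℝ) ^ 2 := by
    intro m
    have h1 := hC m fun _ j => ev (j : ℕ)
    have hx : ∀ j : Fin 2 → Fin m, (fun k => (ev (j k : ℕ) : ℕ →ᵇ 𝕜)) =
        ![ev (j 0 : ℕ), ev (j 1 : ℕ)] := by
      intro j
      funext k
      fin_cases k <;> rfl
    have hs : ∀ f : Fin m → Fin m → ℝ≥0∞, ∑ j : Fin 2 → Fin m, f (j 0) (j 1) =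
        ∑ a, ∑ b, f a b := by
      intro f
      rw [← Fintype.sum_prod_type']
      exact Fintype.sum_equiv (finTwoArrowEquiv (Fin m)) _ _ fun j => rfl
    have hR : (⨆ φ : {φ : ContinuousMultilinearMap 𝕜 (fun _ : Fin 2 => (ℕ →ᵇ 𝕜)) 𝕜 // ‖φ‖ ≤ 1},
        (∑ j : Fin 2 → Fin m, ‖φ.1 fun k => ev (j k : ℕ)‖ₑ ^ (2 : ℝ)) ^ (1 / (2 : ℝ))) ≤ 1 := by
      refine iSup_le fun φ => ?_
      have h2 : ∑ j : Fin 2 → Fin m, ‖φ.1 fun k => ev (j k : ℕ)‖ₑ ^ (2 : ℝ) ≤ 1 := by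
        simp only [hx, ENNReal.rpow_two]
        rw [hs fun a b => ‖φ.1 ![ev (a : ℕ), ev (b : ℕ)]‖ₑ ^ 2]
        have h3 := form_bound m φ.1 φ.2
        have h4 : ∑ a : Fin m, ∑ b : Fin m, ‖φ.1 ![ev (a : ℕ), ev (b : ℕ)]‖₊ ^ 2 ≤ 1 := by
          rw [← NNReal.coe_le_coe]
          push_cast
          exact h3
        simp only [enorm_eq_nnnorm]
        exact_mod_cast h4
      calc _ ≤ (1 : ℝ≥0∞) ^ (1 / (2 : ℝ)) := ENNReal.rpow_le_rpow h2 (by norm_num)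
        _ = 1 := ENNReal.one_rpow _
    have h5 : (∑ j : Fin 2 → Fin m, ‖(T (𝕜 := 𝕜)) fun k => ev (j k : ℕ)‖ₑ ^ (2 : ℝ)) ^
        (1 / (2 : ℝ)) ≤ C := by
      refine h1.trans ?_
      calc _ ≤ (C : ℝ≥0∞) * 1 := by gcongr
        _ = _ := mul_one _
    have h6 : ∑ j : Fin 2 → Fin m, ‖(T (𝕜 := 𝕜)) fun k => ev (j k : ℕ)‖ₑ ^ (2 : ℝ) ≤
        (C : ℝ≥0∞) ^ (2 : ℝ) := by
      calc _ = ((∑ j : Fin 2 → Fin m, ‖(T (𝕜 := 𝕜)) fun k => ev (j k : ℕ)‖ₑ ^ (2 : ℝ)) ^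
          (1 / (2 : ℝ))) ^ (2 : ℝ) := by rw [← ENNReal.rpow_mul]; norm_num
        _ ≤ _ := ENNReal.rpow_le_rpow h5 (by norm_num)
    simp only [hx, ENNReal.rpow_two] at h6
    rw [hs fun a b => ‖(T (𝕜 := 𝕜)) ![ev (a : ℕ), ev (b : ℕ)]‖ₑ ^ 2] at h6
    simp only [enorm_eq_nnnorm] at h6
    have h7 : ∑ a : Fin m, ∑ b : Fin m, ‖(T (𝕜 := 𝕜)) ![ev (a : ℕ), ev (b : ℕ)]‖₊ ^ 2 ≤ C ^ 2 := by
      exact_mod_cast h6
    have h8 : ∑ a : Fin m, ∑ b : Fin m, ‖(T (𝕜 := 𝕜)) ![ev (a : ℕ), ev (b : ℕ)]‖ ^ 2 ≤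
        (C : ℝ) ^ 2 := by
      have := NNReal.coe_le_coe.2 h7
      push_cast at this
      exact this
    refine le_trans ?_ h8
    refine Finset.sum_le_sum fun a _ => Finset.sum_le_sum fun b _ => ?_
    exact pow_le_pow_left₀ (wt_nonneg _) (T_ev a b) 2
  -- the harmonic series diverges
  have h9 : ∀ m : ℕ, ∑ a ∈ Finset.range m, 1 / ((a : ℝ) + 1) ≤ (C : ℝ) ^ 2 := by
    intro m
    refine le_trans ?_ (key m)
    rw [Finset.sum_range]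
    refine Finset.sum_le_sum fun a _ => ?_
    have h10 : ∑ b ∈ Finset.univ.filter (fun b : Fin m => b ≤ a), wt ((a : ℕ), (b : ℕ)) ^ 2 ≤
        ∑ b : Fin m, wt ((a : ℕ), (b : ℕ)) ^ 2 :=
      Finset.sum_le_sum_of_subset_of_nonneg (Finset.filter_subset _ _) fun _ _ _ => sq_nonneg _
    refine le_trans (le_of_eq ?_) h10
    have h11 : ∀ b ∈ Finset.univ.filter (fun b : Fin m => b ≤ a),
        wt ((a : ℕ), (b : ℕ)) ^ 2 = (1 / ((a : ℕ) + 1 : ℝ)) ^ 2 := by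
      intro b hb
      rw [Finset.mem_filter] at hb
      unfold wt
      have : max (a : ℕ) (b : ℕ) = a := max_eq_left hb.2
      rw [this]
    rw [Finset.sum_congr rfl h11, Finset.sum_const, nsmul_eq_mul]
    have h12 : (Finset.univ.filter (fun b : Fin m => b ≤ a)).card = (a : ℕ) + 1 := by
      have : Finset.univ.filter (fun b : Fin m => b ≤ a) = Finset.Iic a := by
        ext b; simp
      rw [this, Fin.card_Iic]
    rw [h12]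
    push_cast
    field_simp
  have h13 := Real.tendsto_sum_range_one_div_nat_succ_atTop
  obtain ⟨m, hm⟩ := (h13.eventually_gt_atTop ((C : ℝ) ^ 2)).exists
  exact absurd (h9 m) (not_le.2 hm)

/-- Over `𝕜 = ℝ` and `𝕜 = ℂ` there are Banach spaces `E`, `F` and a bounded bilinear map
`T : E × E → F` that is quasi-absolutely `2`-summing but not strongly multiple `2`-summing. -/
theorem result (𝕜 : Type u) [RCLike 𝕜] :
    ∃ (E F : Type u) (_ : NormedAddCommGroup E) (_ : NormedSpace 𝕜 E) (_ : CompleteSpace E)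
      (_ : NormedAddCommGroup F) (_ : NormedSpace 𝕜 F) (_ : CompleteSpace F)
      (T : ContinuousMultilinearMap 𝕜 (fun _ : Fin 2 => E) F),
      QuasiSumming 2 T ∧ ¬ StronglyMultipleSumming 2 T :=
  ⟨ℕ →ᵇ 𝕜, (ℕ × ℕ) →ᵇ 𝕜, inferInstance, inferInstance, inferInstance, inferInstance,
    inferInstance, inferInstance, T, T_quasi, T_not_strong⟩

end Pool.Agent.Results.MP_3dc8bf_an.QuasiNotStronglyMultiple
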